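import Pool.Agent.Lib.MP_72b724_gt.Interfaces

/-!
# Module PRISM: the prisms of a stage

The simplices `h_j` are constructed by recursion on the dimension: they are explicit in dimensions
at most `k`, and they are obtained by filling horns in the higher dimensions.
-/

namespace Pool.Agent.Lib.MP_72b724_gt.H47

open Pool.Agent.Lib.MP_72b724_gt

noncomputable section

/-! ### Dependent choice -/

theorem depchoice {α : ℕ → Type} (R : ∀ n, α n → Prop) (Q : ∀ n, α n → α (n + 1) → Prop)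
    (h0 : ∃ a, R 0 a) (hs : ∀ n a, R n a → ∃ b, R (n + 1) b ∧ Q n a b) :
    ∃ f : ∀ n, α n, (∀ n, R n (f n)) ∧ ∀ n, Q n (f n) (f (n + 1)) := by
  classical
  let g : ∀ n, {a : α n // R n a} := fun n => Nat.rec (motive := fun n => {a : α n // R n a})
    ⟨h0.choose, h0.choose_spec⟩
    (fun n a => ⟨(hs n a.1 a.2).choose, (hs n a.1 a.2).choose_spec.1⟩) n
  exact ⟨fun n => (g n).1, fun n => (g n).2, fun n => (hs n (g n).1 (g n).2).choose_spec.2⟩

/-! ### Faces with natural numbers as indices -/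

def dn (F : FSet) {m : ℕ} (t : ℕ) : F.X (m + 1) → F.X m := F.d (Fin.ofNat (m + 2) t)

theorem ofNat_val {m : ℕ} (i : Fin (m + 1)) : Fin.ofNat (m + 1) (i : ℕ) = i := by
  apply Fin.ext
  change (i : ℕ) % (m + 1) = i
  exact Nat.mod_eq_of_lt i.2

theorem ofNat_mk {m : ℕ} {t : ℕ} (h : t < m + 1) : Fin.ofNat (m + 1) t = ⟨t, h⟩ := by
  apply Fin.ext
  change t % (m + 1) = t
  exact Nat.mod_eq_of_lt h

theorem dn_val (F : FSet) {m : ℕ} (i : Fin (m + 2)) (x : F.X (m + 1)) :
    dn F (i : ℕ) x = F.d i x := by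
  unfold dn
  rw [ofNat_val]

theorem dn_dd (F : FSet) {m : ℕ} {i j : ℕ} (h : i ≤ j) (hj : j ≤ m + 1) (x : F.X (m + 2)) :
    dn F i (dn F (j + 1) x) = dn F j (dn F i x) := by
  have h1 := F.dd (⟨i, by omega⟩ : Fin (m + 2)) ⟨j, by omega⟩ h x
  unfold dn
  rw [ofNat_mk (show i < m + 1 + 1 by omega), ofNat_mk (show j < m + 1 + 1 by omega),
    ofNat_mk (show j + 1 < m + 2 + 1 by omega), ofNat_mk (show i < m + 2 + 1 by omega)]
  exact h1

/-! ### Factorisation of maps -/

theorem factor {N a : ℕ} (g : Fin (a + 1) →o Fin (N + 2)) (i : Fin (N + 2))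
    (h : ∀ u, g u ≠ i) : ∃ g' : Fin (a + 1) →o Fin (N + 1), (cofc i).comp g' = g := by
  have h1 : ∀ u, ∃ v : Fin (N + 1), i.succAbove v = g u := fun u =>
    Fin.exists_succAbove_eq (h u)
  choose v hv using h1
  refine ⟨⟨v, ?_⟩, ?_⟩
  · intro a b hab
    have h2 := g.monotone hab
    rw [← hv a, ← hv b] at h2
    exact (Fin.succAbove_le_succAbove_iff).1 h2
  · ext u
    change ((i.succAbove (v u) : Fin (N + 2)) : ℕ) = (g u : ℕ)
    rw [hv u]

theorem exists_miss {N a : ℕ} (g : Fin (a + 1) → Fin (N + 2)) (h : a < N + 1) :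
    ∃ i, ∀ u, g u ≠ i := by
  classical
  by_contra hc
  simp only [not_exists, not_forall, not_not] at hc
  have h1 : Function.Surjective g := fun i => hc i
  have h2 := Fintype.card_le_of_surjective g h1
  simp only [Fintype.card_fin] at h2
  omega

theorem exists_miss' {N a : ℕ} (g : Fin (a + 1) → Fin (N + 2)) (t : Fin (N + 2)) (h : a < N) :
    ∃ i, i ≠ t ∧ ∀ u, g u ≠ i := by
  classical
  by_contra hc
  simp only [not_exists, not_forall, not_and, not_not] at hc
  have h1 : Function.Surjective (fun o : Option (Fin (a + 1)) => o.elim t g) := by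
    intro i
    by_cases hi : i = t
    · exact ⟨none, hi.symm⟩
    · obtain ⟨u, hu⟩ := hc i hi
      exact ⟨some u, hu⟩
  have h2 := Fintype.card_le_of_surjective _ h1
  simp only [Fintype.card_fin, Fintype.card_option] at h2
  omega

section

variable {S : SimpSet} {P : S.Pt}

theorem map_of_miss {N a : ℕ} (g : Fin (a + 1) →o Fin (N + 2)) (i : Fin (N + 2))
    (h : ∀ u, g u ≠ i) (z : S.X (N + 1)) :
    ∃ g' : Fin (a + 1) →o Fin (N + 1), S.map g z = S.map g' (S.d i z) := by
  obtain ⟨g', hg⟩ := factor g i h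
  refine ⟨g', ?_⟩
  rw [← hg]
  exact (S.map_comp _ _ _).symm

theorem fill_triv {k N : ℕ} (hk : k ≤ N) (z : S.X (N + 1)) (t : Fin (N + 2))
    (h : ∀ i, i ≠ t → S.Triv P k (S.d i z)) : S.Triv P k z := by
  intro a g ha
  obtain ⟨i, hit, hi⟩ := exists_miss' (fun u => g u) t (show a < N by omega)
  obtain ⟨g', hg'⟩ := map_of_miss g i hi z
  rw [hg']
  exact h i hit a g' ha

theorem face_triv {k N : ℕ} (hk : k ≤ N + 1) (z : S.X (N + 1))
    (h : ∀ i, S.Triv P k (S.d i z)) : S.Triv P k z := by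
  intro a g ha
  obtain ⟨i, hi⟩ := exists_miss (fun u => g u) (show a < N + 1 by omega)
  obtain ⟨g', hg'⟩ := map_of_miss g i hi z
  rw [hg']
  exact h i a g' ha

theorem pt_triv (P : S.Pt) (k m : ℕ) : S.Triv P k (P.pt m) := fun _ g _ => P.map_pt g

theorem eq_pt_of_triv {k m : ℕ} {z : S.X m} (h : S.Triv P k z) (hm : m < k) : z = P.pt m := by
  have := h m OrderHom.id hm
  rwa [S.map_id] at this

theorem eil_subsingleton {k m : ℕ} (hm : m < k) (u v : (S.Eil P k).X m) : u = v := by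
  apply Subtype.ext
  rw [eq_pt_of_triv u.2 hm, eq_pt_of_triv v.2 hm]

theorem triv_succ_of_lt {k m : ℕ} {z : S.X m} (h : S.Triv P k z) (hm : m < k) :
    S.Triv P (k + 1) z := by
  rw [eq_pt_of_triv h hm]
  exact pt_triv P _ _

/-- The base point of the Eilenberg subcomplex. -/
def ptE (P : S.Pt) (k m : ℕ) : (S.Eil P k).X m := ⟨P.pt m, pt_triv P k m⟩

theorem dn_ptE (k m t : ℕ) : dn (S.Eil P k) t (ptE P k (m + 1)) = ptE P k m := by
  apply Subtype.ext
  exact P.map_pt _

end

/-! ### Levels -/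

section Level

variable {S : SimpSet} {P : S.Pt} {k : ℕ} (T : Stage S P k)

abbrev Lev (n : ℕ) : Type := T.E.X n → Fin (n + 1) → (S.Eil P k).X (n + 1)

variable {T}

def hn {n : ℕ} (x : Lev T n) (e : T.E.X n) (j : ℕ) : (S.Eil P k).X (n + 1) :=
  x e (Fin.ofNat (n + 1) j)

theorem hn_val {n : ℕ} (x : Lev T n) (e : T.E.X n) (j : Fin (n + 1)) :
    hn x e (j : ℕ) = x e j := by
  unfold hn
  rw [ofNat_val]

theorem proj_dn {n : ℕ} (e : T.E.X (n + 1)) (t : ℕ) :
    T.proj (dn T.E t e) = dn (S.Eil P k) t (T.proj e) := rfl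

/-- The conditions at level `n` which do not mention the level `n - 1`. -/
structure Good (n : ℕ) (x : Lev T n) : Prop where
  bot : ∀ e, dn (S.Eil P k) 0 (hn x e 0) = T.proj e
  mid : ∀ e j, 1 ≤ j → j ≤ n → dn (S.Eil P k) j (hn x e j) = dn (S.Eil P k) j (hn x e (j - 1))
  rt : ∀ e, S.Triv P (k + 1) (dn (S.Eil P k) (n + 1) (hn x e n)).1
  c1 : ∀ (e : T.E.X (n + 1)) (a b j : ℕ), j < a → a ≤ b → b ≤ n →
    dn (S.Eil P k) (a + 1) (hn x (dn T.E (b + 1) e) j) =
      dn (S.Eil P k) (b + 1) (hn x (dn T.E a e) j)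
  c2 : ∀ (e : T.E.X (n + 1)) (a b l : ℕ), a ≤ b → b < l → l ≤ n →
    dn (S.Eil P k) a (hn x (dn T.E (b + 1) e) l) = dn (S.Eil P k) b (hn x (dn T.E a e) l)
  c3 : ∀ (e : T.E.X (n + 1)) (a b l : ℕ), a ≤ l → l < b → b ≤ n →
    dn (S.Eil P k) a (hn x (dn T.E (b + 1) e) (l + 1)) =
      dn (S.Eil P k) (b + 1) (hn x (dn T.E a e) l)

/-- The relation between two levels. -/
structure Rel (n : ℕ) (x : Lev T n) (x' : Lev T (n + 1)) : Prop where
  low : ∀ e i j, i ≤ j → j ≤ n → dn (S.Eil P k) i (hn x' e (j + 1)) = hn x (dn T.E i e) j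
  upp : ∀ e i j, j < i → i ≤ n + 1 → dn (S.Eil P k) (i + 1) (hn x' e j) = hn x (dn T.E i e) j

theorem good_of_rel {n : ℕ} {x : Lev T n} {x' : Lev T (n + 1)} (h : Rel n x x')
    (bot : ∀ e, dn (S.Eil P k) 0 (hn x' e 0) = T.proj e)
    (mid : ∀ e j, 1 ≤ j → j ≤ n + 1 →
      dn (S.Eil P k) j (hn x' e j) = dn (S.Eil P k) j (hn x' e (j - 1)))
    (rt : ∀ e, S.Triv P (k + 1) (dn (S.Eil P k) (n + 1 + 1) (hn x' e (n + 1))).1) :
    Good (n + 1) x' where
  bot := bot
  mid := mid
  rt := rt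
  c1 e a b j h1 h2 h3 := by
    rw [h.upp _ _ _ h1 (by omega), h.upp _ _ _ (by omega) h3, dn_dd T.E h2 h3]
  c2 e a b l h1 h2 h3 := by
    obtain ⟨l, rfl⟩ : ∃ l', l = l' + 1 := ⟨l - 1, by omega⟩
    rw [h.low _ _ _ (by omega) (by omega), h.low _ _ _ (by omega) (by omega),
      dn_dd T.E h1 (by omega)]
  c3 e a b l h1 h2 h3 := by
    rw [h.low _ _ _ (by omega) (by omega), h.upp _ _ _ (by omega) (by omega),
      dn_dd T.E (by omega) h3]

/-- The faces of the last face of the last prism. -/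
theorem last_face {n : ℕ} {x : Lev T n} {x' : Lev T (n + 1)} (h : Rel n x x')
    (mid : ∀ e j, 1 ≤ j → j ≤ n + 1 →
      dn (S.Eil P k) j (hn x' e j) = dn (S.Eil P k) j (hn x' e (j - 1)))
    (e : T.E.X (n + 1)) {i : ℕ} (hi : i ≤ n + 1) :
    dn (S.Eil P k) i (dn (S.Eil P k) (n + 1 + 1) (hn x' e (n + 1))) =
      dn (S.Eil P k) (n + 1) (hn x (dn T.E i e) n) := by
  rw [dn_dd _ hi le_rfl]
  rcases Nat.lt_or_ge i (n + 1) with h1 | h1
  · rw [h.low _ _ _ (by omega) le_rfl]
  · obtain rfl : i = n + 1 := by omega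
    rw [mid e (n + 1) (by omega) le_rfl, Nat.add_sub_cancel, ← dn_dd _ le_rfl le_rfl,
      h.upp _ _ _ (by omega) le_rfl]

/-! ### High dimensions -/

/-- The invariant of the recursion on `j` at level `n + 1`. -/
structure Inv {n : ℕ} (x : Lev T n) (e : T.E.X (n + 1)) (j : ℕ) (z : (S.Eil P k).X (n + 2)) :
    Prop where
  i0 : j = 0 → dn (S.Eil P k) 0 z = T.proj e
  ilow : ∀ i, i < j → dn (S.Eil P k) i z = hn x (dn T.E i e) (j - 1)
  iupp : ∀ i, j < i → i ≤ n + 1 → dn (S.Eil P k) (i + 1) z = hn x (dn T.E i e) j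
  imm : j ≤ n → dn (S.Eil P k) j (dn (S.Eil P k) j z) = dn (S.Eil P k) j (hn x (dn T.E j e) j)

/-- Filling of horns in the Eilenberg subcomplex. -/
theorem fill (hK : S.Kan) {n : ℕ} (hk : k ≤ n + 1) (f : ℕ → (S.Eil P k).X (n + 1)) (t : ℕ)
    (ht : t ≤ n + 2)
    (hf : ∀ a b, a ≤ b → b ≤ n + 1 → a ≠ t → b + 1 ≠ t →
      dn (S.Eil P k) a (f (b + 1)) = dn (S.Eil P k) b (f a)) :
    ∃ z : (S.Eil P k).X (n + 2), ∀ i, i ≤ n + 2 → i ≠ t → dn (S.Eil P k) i z = f i := by
  obtain ⟨x, hx⟩ := hK n ⟨t, by omega⟩ (fun i => (f i).1) (by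
    intro i j hij h1 h2
    have h3 := hf i j hij (by omega) (by
      intro h; apply h1; apply Fin.ext; exact h) (by
      intro h; apply h2; apply Fin.ext; exact h)
    rw [dn_val, dn_val] at h3
    have h4 := congrArg Subtype.val h3
    exact h4)
  have ht' : S.Triv P k x := by
    refine fill_triv hk x ⟨t, by omega⟩ fun i hi => ?_
    rw [hx i hi]
    exact (f i).2
  refine ⟨⟨x, ht'⟩, fun i hi hit => ?_⟩
  have h5 := hx ⟨i, by omega⟩ (by
    intro h; apply hit; exact congrArg Fin.val h)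
  apply Subtype.ext
  unfold dn
  rw [ofNat_mk (show i < n + 2 + 1 by omega)]
  exact h5

theorem inv_zero (hK : S.Kan) {n : ℕ} (hk : k ≤ n + 1) {x : Lev T n} (hx : Good n x)
    (e : T.E.X (n + 1)) : ∃ z, Inv x e 0 z := by
  obtain ⟨z, hz⟩ := fill hK hk
    (fun t => if t = 0 then T.proj e else hn x (dn T.E (t - 1) e) 0) 1 (by omega) (by
      intro a b hab hb ha1 hb1
      have hb0 : b ≠ 0 := by omega
      rw [if_neg (by omega : ¬ (b + 1 = 0)), Nat.add_sub_cancel]
      rcases Nat.eq_zero_or_pos a with rfl | ha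
      · rw [if_pos rfl, hx.bot, proj_dn]
      · rw [if_neg (by omega)]
        obtain ⟨a, rfl⟩ : ∃ a', a = a' + 1 := ⟨a - 1, by omega⟩
        obtain ⟨b, rfl⟩ : ∃ b', b = b' + 1 := ⟨b - 1, by omega⟩
        rw [Nat.add_sub_cancel]
        exact hx.c1 e a b 0 (by omega) (by omega) (by omega))
  refine ⟨z, fun _ => ?_, fun i hi => absurd hi (by omega), fun i h1 h2 => ?_, fun _ => ?_⟩
  · rw [hz 0 (by omega) (by omega), if_pos rfl]
  · rw [hz (i + 1) (by omega) (by omega), if_neg (by omega), Nat.add_sub_cancel]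
  · rw [hz 0 (by omega) (by omega), if_pos rfl, hx.bot, proj_dn]

theorem inv_succ (hK : S.Kan) {n : ℕ} (hk : k ≤ n + 1) {x : Lev T n} (hx : Good n x)
    (e : T.E.X (n + 1)) {j : ℕ} (hj : j ≤ n) {z : (S.Eil P k).X (n + 2)} (hz : Inv x e j z) :
    ∃ w, Inv x e (j + 1) w ∧ dn (S.Eil P k) (j + 1) w = dn (S.Eil P k) (j + 1) z := by
  obtain ⟨w, hw⟩ := fill hK hk
    (fun t => if t < j + 1 then hn x (dn T.E t e) j else
      if t = j + 1 then dn (S.Eil P k) (j + 1) z else hn x (dn T.E (t - 1) e) (j + 1))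
    (j + 2) (by omega) (by
      intro a b hab hb ha1 hb1
      rcases Nat.lt_trichotomy b j with h1 | h1 | h1
      · rw [if_pos (by omega), if_pos (by omega)]
        exact hx.c2 e a b j hab h1 hj
      · subst h1
        rw [if_neg (by omega), if_pos rfl, if_pos (by omega), dn_dd _ hab hb]
        rcases Nat.lt_or_ge a b with h2 | h2
        · rw [hz.ilow a h2, hx.mid _ b (by omega) hj]
        · obtain rfl : a = b := by omega
          exact hz.imm hj
      · have h1' : j + 2 ≤ b := by omega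
        rw [if_neg (by omega : ¬ (b + 1 < j + 1)), if_neg (by omega : ¬ (b + 1 = j + 1)),
          Nat.add_sub_cancel]
        obtain ⟨b, rfl⟩ : ∃ b', b = b' + 1 := ⟨b - 1, by omega⟩
        rcases Nat.lt_trichotomy a (j + 1) with h2 | h2 | h2
        · rw [if_pos h2]
          exact hx.c3 e a b j (by omega) (by omega) (by omega)
        · subst h2
          rw [if_neg (by omega), if_pos rfl, ← dn_dd _ hab hb, hz.iupp _ (by omega) hb,
            hx.mid _ (j + 1) (by omega) (by omega), Nat.add_sub_cancel]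
        · rw [if_neg (by omega), if_neg (by omega)]
          obtain ⟨a, rfl⟩ : ∃ a', a = a' + 1 := ⟨a - 1, by omega⟩
          rw [Nat.add_sub_cancel]
          exact hx.c1 e a b (j + 1) (by omega) (by omega) (by omega))
  have hw1 : dn (S.Eil P k) (j + 1) w = dn (S.Eil P k) (j + 1) z := by
    rw [hw (j + 1) (by omega) (by omega), if_neg (by omega), if_pos rfl]
  refine ⟨w, ⟨fun h => absurd h (by omega), fun i hi => ?_, fun i h1 h2 => ?_, fun h => ?_⟩, hw1⟩
  · rw [hw i (by omega) (by omega), if_pos hi, Nat.add_sub_cancel]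
  · rw [hw (i + 1) (by omega) (by omega), if_neg (by omega), if_neg (by omega),
      Nat.add_sub_cancel]
  · rw [hw1, ← dn_dd _ le_rfl (by omega), hz.iupp _ (by omega) (by omega),
      hx.mid _ (j + 1) (by omega) h, Nat.add_sub_cancel]

theorem step_high (hK : S.Kan) {n : ℕ} (hk : k ≤ n) {x : Lev T n} (hx : Good n x) :
    ∃ x' : Lev T (n + 1), Good (n + 1) x' ∧ Rel n x x' := by
  have h1 : ∀ e : T.E.X (n + 1), ∃ y : ℕ → (S.Eil P k).X (n + 2),
      (∀ j, j ≤ n + 1 → Inv x e j (y j)) ∧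
      ∀ j, j ≤ n → dn (S.Eil P k) (j + 1) (y (j + 1)) = dn (S.Eil P k) (j + 1) (y j) := by
    intro e
    obtain ⟨y, hy1, hy2⟩ := depchoice (α := fun _ => (S.Eil P k).X (n + 2))
      (fun j z => j ≤ n + 1 → Inv x e j z)
      (fun j z w => j ≤ n → dn (S.Eil P k) (j + 1) w = dn (S.Eil P k) (j + 1) z)
      (by
        obtain ⟨z, hz⟩ := inv_zero hK (by omega) hx e
        exact ⟨z, fun _ => hz⟩)
      (by
        intro j z hz
        by_cases hj : j ≤ n
        · obtain ⟨w, hw1, hw2⟩ := inv_succ hK (by omega) hx e hj (hz (by omega))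
          exact ⟨w, fun _ => hw1, fun _ => hw2⟩
        · exact ⟨z, fun h => absurd h (by omega), fun h => absurd h hj⟩)
    exact ⟨y, hy1, hy2⟩
  choose y hy1 hy2 using h1
  have hh : ∀ e j, j ≤ n + 1 → hn (T := T) (n := n + 1) (fun e j => y e j) e j = y e j := by
    intro e j hj
    unfold hn
    rw [ofNat_mk (show j < n + 1 + 1 by omega)]
  have hrel : Rel n x (fun e j => y e j) := by
    constructor
    · intro e i j h1 h2
      rw [hh _ _ (by omega), (hy1 e (j + 1) (by omega)).ilow i (by omega), Nat.add_sub_cancel]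
    · intro e i j h1 h2
      rw [hh _ _ (by omega), (hy1 e j (by omega)).iupp i h1 h2]
  have hmid : ∀ e j, 1 ≤ j → j ≤ n + 1 →
      dn (S.Eil P k) j (hn (T := T) (n := n + 1) (fun e j => y e j) e j) =
        dn (S.Eil P k) j (hn (T := T) (n := n + 1) (fun e j => y e j) e (j - 1)) := by
    intro e j h1 h2
    obtain ⟨j, rfl⟩ : ∃ j', j = j' + 1 := ⟨j - 1, by omega⟩
    rw [hh _ _ h2, Nat.add_sub_cancel, hh _ _ (by omega)]
    exact hy2 e j (by omega)
  refine ⟨fun e j => y e j, good_of_rel hrel ?_ hmid ?_, hrel⟩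
  · intro e
    rw [hh _ _ (by omega)]
    exact (hy1 e 0 (by omega)).i0 rfl
  · intro e
    refine face_triv (by omega) _ fun i => ?_
    have h3 := last_face hrel hmid e (i := i) (by omega)
    rw [dn_val] at h3
    have h4 := congrArg Subtype.val h3
    change S.Triv P (k + 1) ((S.Eil P k).d i _).1
    rw [h4]
    exact hx.rt _

/-! ### Low dimensions -/

theorem good_of_lt {n : ℕ} (h : n < k) (x : Lev T n) : Good n x where
  bot _ := eil_subsingleton h _ _
  mid _ _ _ _ := eil_subsingleton h _ _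
  rt _ := triv_succ_of_lt (Subtype.property _) h
  c1 _ _ _ _ _ _ _ := eil_subsingleton h _ _
  c2 _ _ _ _ _ _ _ := eil_subsingleton h _ _
  c3 _ _ _ _ _ _ _ := eil_subsingleton h _ _

theorem rel_of_lt {n : ℕ} (h : n + 1 < k) (x : Lev T n) (x' : Lev T (n + 1)) : Rel n x x' where
  low _ _ _ _ _ := eil_subsingleton h _ _
  upp _ _ _ _ _ := eil_subsingleton h _ _

/-- The identity of `Fin k`, as a map to `Fin (n + 1)`. -/
def idE {k n : ℕ} (h : n + 1 = k) : Inc k (n + 1) := (Fin.castOrderIso h.symm).toOrderEmbedding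

variable (T) in
/-- The first simplex of the prism in dimension `k - 1`. -/
def lowVal {n : ℕ} (h : n + 1 = k) (e : T.E.X n) : (S.Eil P k).X (n + 1) :=
  Eq.rec (motive := fun m _ => (S.Eil P k).X m) (T.α (e.1.2 (idE h))) h.symm

variable (T) in
/-- The prisms in dimensions smaller than `k`. -/
def lowLev (n : ℕ) : Lev T n := fun e j =>
  if h : n + 1 = k then (if (j : ℕ) = 0 then lowVal T h e else ptE P k (n + 1)) else ptE P k (n + 1)

end Level

/-- The degeneracy `s_0`. -/
def s0 (m : ℕ) : Fin (m + 2) →o Fin (m + 1) :=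
  ⟨fun a => ⟨(a : ℕ) - 1, by omega⟩, fun a b h => by
    rw [Fin.le_def] at h ⊢
    change (a : ℕ) - 1 ≤ (b : ℕ) - 1
    omega⟩

theorem cofc_val {m : ℕ} (i : Fin (m + 2)) (a : Fin (m + 1)) :
    ((cofc i a : Fin (m + 2)) : ℕ) = if (a : ℕ) < i then (a : ℕ) else a + 1 := by
  change ((i.succAbove a : Fin (m + 2)) : ℕ) = _
  unfold Fin.succAbove
  simp only [Fin.lt_def, Fin.val_castSucc]
  split_ifs <;> simp

section Level2

variable {S : SimpSet} {P : S.Pt}

theorem d_s0_low {n : ℕ} (z : S.X (n + 1)) (i : Fin (n + 3)) (hi : (i : ℕ) ≤ 1) :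
    S.d i (S.map (s0 (n + 1)) z) = z := by
  unfold SimpSet.d
  rw [S.map_comp]
  have h1 : (s0 (n + 1)).comp (cofc i) = OrderHom.id := by
    ext a
    change ((cofc i a : Fin (n + 3)) : ℕ) - 1 = (a : ℕ)
    rw [cofc_val]
    split_ifs <;> omega
  rw [h1, S.map_id]

theorem d_s0_high {n : ℕ} (z : S.X (n + 1)) (hz : S.Triv P (n + 1) z) (i : Fin (n + 3))
    (hi : 2 ≤ (i : ℕ)) : S.d i (S.map (s0 (n + 1)) z) = P.pt (n + 1) := by
  unfold SimpSet.d
  rw [S.map_comp]
  obtain ⟨g', hg'⟩ := map_of_miss ((s0 (n + 1)).comp (cofc i)) ⟨(i : ℕ) - 1, by omega⟩ (by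
    intro u hu
    have h1 := congrArg Fin.val hu
    change ((cofc i u : Fin (n + 3)) : ℕ) - 1 = (i : ℕ) - 1 at h1
    rw [cofc_val] at h1
    split_ifs at h1 <;> omega) z
  have h2 : S.d (⟨(i : ℕ) - 1, by omega⟩ : Fin (n + 2)) z = P.pt n :=
    eq_pt_of_triv (hz.map _) (by omega)
  rw [hg', h2, P.map_pt]

theorem step_eq {n : ℕ} (T : Stage S P (n + 1)) :
    ∃ x' : Lev T (n + 1), Good (n + 1) x' ∧ Rel n (lowLev T n) x' := by
  have h1 : ∀ e : T.E.X (n + 1), ∃ y : (S.Eil P (n + 1)).X (n + 2),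
      dn (S.Eil P (n + 1)) 0 y = T.proj e ∧
      ∀ i : Fin (n + 2), (S.Eil P (n + 1)).d i.succ y =
        T.α (e.1.2 (Fin.succAboveOrderEmb i)) := by
    intro e
    obtain ⟨y, hy1, hy2⟩ := T.fill e.1.1 (fun i => e.1.2 (Fin.succAboveOrderEmb i)) (by
      have h2 := e.2 (idE rfl)
      refine h2.trans ?_
      congr 1
      apply Subtype.ext
      exact S.map_id _)
    have hy : S.Triv P (n + 1) y := by
      refine face_triv (by omega) y fun i => ?_
      refine Fin.cases ?_ (fun i => ?_) i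
      · rw [hy1]
        exact e.1.1.2
      · rw [hy2]
        exact (T.α _).2
    refine ⟨⟨y, hy⟩, Subtype.ext hy1, fun i => Subtype.ext (hy2 i)⟩
  choose Y hY1 hY2 using h1
  let A : T.E.X (n + 1) → (S.Eil P (n + 1)).X (n + 1) := fun e =>
    T.α (e.1.2 (Fin.succAboveOrderEmb 0))
  let B : T.E.X (n + 1) → (S.Eil P (n + 1)).X (n + 2) := fun e =>
    ⟨S.map (s0 (n + 1)) (A e).1, (A e).2.map _⟩
  have hB1 : ∀ e i, i ≤ 1 → dn (S.Eil P (n + 1)) i (B e) = A e := by
    intro e i hi
    unfold dn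
    rw [ofNat_mk (show i < n + 2 + 1 by omega)]
    apply Subtype.ext
    exact d_s0_low _ _ hi
  have hB2 : ∀ e i, 2 ≤ i → i ≤ n + 2 →
      dn (S.Eil P (n + 1)) i (B e) = ptE P (n + 1) (n + 1) := by
    intro e i hi hi'
    unfold dn
    rw [ofNat_mk (show i < n + 2 + 1 by omega)]
    apply Subtype.ext
    exact d_s0_high _ (A e).2 _ hi
  let y : T.E.X (n + 1) → ℕ → (S.Eil P (n + 1)).X (n + 2) := fun e j =>
    if j = 0 then Y e else if j = 1 then B e else ptE P (n + 1) (n + 2)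
  have hh : ∀ e j, j ≤ n + 1 → hn (T := T) (n := n + 1) (fun e j => y e j) e j = y e j := by
    intro e j hj
    unfold hn
    rw [ofNat_mk (show j < n + 1 + 1 by omega)]
  have hx0 : ∀ (e : T.E.X (n + 1)) (i : Fin (n + 2)),
      hn (lowLev T n) (dn T.E i e) 0 = T.α (e.1.2 (Fin.succAboveOrderEmb i)) := by
    intro e i
    rw [dn_val]
    have h3 : hn (lowLev T n) (T.E.d i e) 0 = lowVal T rfl (T.E.d i e) := by
      unfold hn lowLev
      rw [dif_pos rfl]
      exact if_pos rfl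
    rw [h3]
    rfl
  have hxj : ∀ (e : T.E.X n) j, 1 ≤ j → j ≤ n →
      hn (lowLev T n) e j = ptE P (n + 1) (n + 1) := by
    intro e j h1 h2
    unfold hn lowLev
    rw [dif_pos rfl, if_neg]
    rw [ofNat_mk (show j < n + 1 by omega)]
    change ¬ j = 0
    omega
  have hrel : Rel n (lowLev T n) (fun e j => y e j) := by
    constructor
    · intro e i j h1 h2
      rw [hh _ _ (by omega)]
      rcases Nat.eq_zero_or_pos j with rfl | hj
      · obtain rfl : i = 0 := by omega
        have h3 : y e (0 + 1) = B e := rfl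
        rw [h3, hB1 e 0 (by omega)]
        exact (hx0 e 0).symm
      · have h3 : y e (j + 1) = ptE P (n + 1) (n + 2) := by
          change (if j + 1 = 0 then _ else if j + 1 = 1 then _ else _) = _
          rw [if_neg (by omega), if_neg (by omega)]
        rw [h3, dn_ptE, hxj _ _ hj h2]
    · intro e i j h1 h2
      rw [hh _ _ (by omega)]
      rcases Nat.eq_zero_or_pos j with rfl | hj
      · have h3 : y e 0 = Y e := rfl
        rw [h3]
        have h4 := hY2 e ⟨i, by omega⟩
        rw [← dn_val] at h4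
        exact h4.trans (hx0 e ⟨i, by omega⟩).symm
      · rw [hxj _ _ hj (by omega)]
        rcases Nat.lt_or_ge 1 j with h4 | h4
        · have h3 : y e j = ptE P (n + 1) (n + 2) := by
            change (if j = 0 then _ else if j = 1 then _ else _) = _
            rw [if_neg (by omega), if_neg (by omega)]
          rw [h3, dn_ptE]
        · obtain rfl : j = 1 := by omega
          have h3 : y e 1 = B e := rfl
          rw [h3, hB2 e _ (by omega) (by omega)]
  have hmid : ∀ e j, 1 ≤ j → j ≤ n + 1 →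
      dn (S.Eil P (n + 1)) j (hn (T := T) (n := n + 1) (fun e j => y e j) e j) =
        dn (S.Eil P (n + 1)) j (hn (T := T) (n := n + 1) (fun e j => y e j) e (j - 1)) := by
    intro e j h1 h2
    obtain ⟨j, rfl⟩ : ∃ j', j = j' + 1 := ⟨j - 1, by omega⟩
    rw [hh _ _ h2, Nat.add_sub_cancel, hh _ _ (by omega)]
    rcases Nat.eq_zero_or_pos j with rfl | hj
    · have h3 : y e (0 + 1) = B e := rfl
      have h4 : y e 0 = Y e := rfl
      rw [h3, h4, hB1 e _ (by omega)]
      have h5 := hY2 e 0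
      rw [← dn_val] at h5
      exact h5.symm
    · have h3 : y e (j + 1) = ptE P (n + 1) (n + 2) := by
        change (if j + 1 = 0 then _ else if j + 1 = 1 then _ else _) = _
        rw [if_neg (by omega), if_neg (by omega)]
      rw [h3, dn_ptE]
      rcases Nat.lt_or_ge 1 j with h4 | h4
      · have h5 : y e j = ptE P (n + 1) (n + 2) := by
          change (if j = 0 then _ else if j = 1 then _ else _) = _
          rw [if_neg (by omega), if_neg (by omega)]
        rw [h5, dn_ptE]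
      · obtain rfl : j = 1 := by omega
        have h5 : y e 1 = B e := rfl
        rw [h5, hB2 e _ (by omega) (by omega)]
  refine ⟨fun e j => y e j, good_of_rel hrel ?_ hmid ?_, hrel⟩
  · intro e
    rw [hh _ _ (by omega)]
    exact hY1 e
  · intro e
    rw [hh _ _ (by omega)]
    rcases Nat.eq_zero_or_pos n with hn0 | hn0
    · subst hn0
      have h3 : y e (0 + 1) = B e := rfl
      rw [h3, hB2 e _ (by omega) (by omega)]
      exact pt_triv P _ _
    · have h3 : y e (n + 1) = ptE P (n + 1) (n + 2) := by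
        change (if n + 1 = 0 then _ else if n + 1 = 1 then _ else _) = _
        rw [if_neg (by omega), if_neg (by omega)]
      rw [h3, dn_ptE]
      exact pt_triv P _ _

theorem base_zero (T : Stage S P 0) : ∃ x : Lev T 0, Good 0 x := by
  have h1 : ∀ e : T.E.X 0, ∃ y : (S.Eil P 0).X 1,
      dn (S.Eil P 0) 0 y = T.proj e ∧ S.Triv P 1 (dn (S.Eil P 0) 1 y).1 := by
    intro e
    obtain ⟨y, hy1, hy2⟩ := T.fill e.1.1 (fun i => e.1.2 (Fin.succAboveOrderEmb i)) (by
      have h2 := e.2 ((Fin.castOrderIso rfl).toOrderEmbedding)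
      refine h2.trans ?_
      congr 1
      apply Subtype.ext
      exact S.map_id _)
    refine ⟨⟨y, fun j g hj => absurd hj (by omega)⟩, Subtype.ext hy1, ?_⟩
    have h3 : (dn (S.Eil P 0) 1 (⟨y, fun j g hj => absurd hj (by omega)⟩ : (S.Eil P 0).X 1)).1 =
        P.pt 0 := (hy2 0).trans (T.pt rfl _)
    rw [h3]
    exact pt_triv P _ _
  choose y hy1 hy2 using h1
  refine ⟨fun e _ => y e, ?_⟩
  constructor
  · exact hy1
  · intro e j h1 h2
    omega
  · exact hy2
  · intro e a b j h1 h2 h3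
    omega
  · intro e a b j h1 h2 h3
    omega
  · intro e a b j h1 h2 h3
    omega

theorem levels (hK : S.Kan) {k : ℕ} (T : Stage S P k) :
    ∃ x : ∀ n, Lev T n, (∀ n, Good n (x n)) ∧ ∀ n, Rel n (x n) (x (n + 1)) := by
  obtain ⟨x, hx1, hx2⟩ := depchoice (α := fun n => Lev T n)
    (fun n x => Good n x ∧ (n < k → x = lowLev T n)) (fun n x x' => Rel n x x')
    (by
      rcases Nat.eq_zero_or_pos k with rfl | hk
      · obtain ⟨x, hx⟩ := base_zero T
        exact ⟨x, hx, fun h => absurd h (by omega)⟩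
      · exact ⟨lowLev T 0, good_of_lt hk _, fun _ => rfl⟩)
    (by
      rintro n x ⟨hx, hl⟩
      rcases Nat.lt_trichotomy (n + 1) k with h | h | h
      · exact ⟨lowLev T (n + 1), ⟨good_of_lt h _, fun _ => rfl⟩, rel_of_lt h _ _⟩
      · subst h
        obtain ⟨x', h1, h2⟩ := step_eq T
        rw [← hl (by omega)] at h2
        exact ⟨x', ⟨h1, fun h => absurd h (by omega)⟩, h2⟩
      · obtain ⟨x', h1, h2⟩ := step_high hK (by omega) hx
        exact ⟨x', ⟨h1, fun h => absurd h (by omega)⟩, h2⟩)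
  exact ⟨x, fun n => (hx1 n).1, hx2⟩

/-- Module PRISM. -/
theorem prism : PrismStatement := by
  intro S P hK k T
  obtain ⟨x, hx, hr⟩ := levels hK T
  refine ⟨fun m e => ⟨(dn (S.Eil P k) (m + 1) (hn (x m) e m)).1, (hx m).rt e⟩, x, ?_, ?_⟩
  · intro m i e
    have h1 := last_face (hr m) (hx (m + 1)).mid e (i := (i : ℕ)) (by omega)
    rw [dn_val, dn_val] at h1
    apply Subtype.ext
    have h2 := congrArg Subtype.val h1
    exact h2.symm
  · constructor
    · intro m e
      have h1 := (hx m).bot e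
      have h2 := dn_val (S.Eil P k) 0 (hn (x m) e 0)
      have h3 := hn_val (x m) e 0
      exact ((congrArg ((S.Eil P k).d 0) h3).symm.trans h2.symm).trans h1
    · intro m e
      have h2 := dn_val (S.Eil P k) (Fin.last (m + 1)) (hn (x m) e (Fin.last m : Fin (m + 1)))
      have h3 := hn_val (x m) e (Fin.last m)
      exact ((congrArg ((S.Eil P k).d (Fin.last (m + 1))) h3).symm.trans h2.symm)
    · intro m e i j hij
      have h1 := (hr m).low e i j hij (by omega)
      have h2 := dn_val (S.Eil P k) i.castSucc (hn (x (m + 1)) e (j.succ : Fin (m + 1 + 1)))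
      have h3 := hn_val (x (m + 1)) e j.succ
      rw [hn_val (x m), dn_val T.E] at h1
      exact ((congrArg ((S.Eil P k).d i.castSucc) h3).symm.trans h2.symm).trans h1
    · intro m e i j hij
      have h1 := (hr m).upp e i j hij (by omega)
      have h2 := dn_val (S.Eil P k) i.succ (hn (x (m + 1)) e (j.castSucc : Fin (m + 1 + 1)))
      have h3 := hn_val (x (m + 1)) e j.castSucc
      rw [hn_val (x m), dn_val T.E] at h1
      exact ((congrArg ((S.Eil P k).d i.succ) h3).symm.trans h2.symm).trans h1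
    · intro m e j
      have h1 := (hx (m + 1)).mid e (j + 1) (by omega) (by omega)
      have h2 := dn_val (S.Eil P k) j.succ.castSucc
        (hn (x (m + 1)) e (j.succ : Fin (m + 1 + 1)))
      have h3 := hn_val (x (m + 1)) e j.succ
      have h4 := dn_val (S.Eil P k) j.succ.castSucc
        (hn (x (m + 1)) e (j.castSucc : Fin (m + 1 + 1)))
      have h5 := hn_val (x (m + 1)) e j.castSucc
      exact ((congrArg ((S.Eil P k).d j.succ.castSucc) h3).symm.trans h2.symm).trans
        (h1.trans (h4.trans (congrArg ((S.Eil P k).d j.succ.castSucc) h5)))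

end Level2

end

end Pool.Agent.Lib.MP_72b724_gt.H47
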